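import Pool.Agent.Helper21_PP.Tsb

/-!
Squad PP (AWC), part R2, module INX: local innerness.
-/

open scoped BigOperators

noncomputable section

namespace Pool.Agent.PP.H21

open Pool.Agent.Helper51_AWC Pool.Agent.Helper79_WRA Pool.Agent.PP

section inx

variable {F Y : Type} [Field F] [Group Y] [Finite Y]

theorem dl_dl (a : Y) (w : Y → F) : mulF (dl F a) (mulF (dl F a⁻¹) w) = w := by
  funext y
  rw [H75.mulF_dl_left, H75.mulF_dl_left, inv_inv, mul_inv_cancel_left]

theorem Unt.shift {f : Y → F} {γ : MulAut Y} {w wi : Y → F} (hf : IsCl f) (h : Unt f γ w wi)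
    (a : Y) : Unt f (tw γ a) (fun y => w (a * y)) (fun y => wi (y * a⁻¹)) := by
  have h1 : (fun y => w (a * y)) = mulF (dl F a⁻¹) w := by
    funext y
    rw [H75.mulF_dl_left, inv_inv]
  have h2 : (fun y => wi (y * a⁻¹)) = mulF wi (dl F a) := by
    funext y
    rw [H75.mulF_dl_right]
  have hfc : ∀ c, mulF f c = mulF c f := fun c => H75.mulF_comm_cl hf c
  refine ⟨?_, ?_, ?_, ?_, ?_⟩
  · rw [h1, ← mulF_assoc, hfc, mulF_assoc, h.fw]
  · rw [h2, ← mulF_assoc, h.fwi]
  · rw [h1, h2, mulF_assoc, ← mulF_assoc w, h.unit, hfc]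
    have h3 := dl_dl a⁻¹ f
    rwa [inv_inv] at h3
  · rw [h1, h2, mulF_assoc, dl_dl, h.unit']
  · intro n y
    show w (a * ((tw γ a)⁻¹ n * y * n⁻¹)) = w (a * y)
    have h4 : (tw γ a)⁻¹ n = a⁻¹ * γ⁻¹ n * a := by
      show (γ * MulAut.conj a)⁻¹ n = _
      rw [mul_inv_rev, MulAut.mul_apply, ← map_inv, MulAut.conj_apply, inv_inv]
    rw [h4, ← h.comm n (a * y)]
    congr 1
    group

theorem killF {ℓ : ℕ} (hF : CharP F ℓ) (v : F) : ℓ • v = 0 := by
  rw [nsmul_eq_mul, CharP.cast_eq_zero, zero_mul]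

/-- the Brauer map is multiplicative on invariant functions -/
theorem br_mul {ℓ : ℕ} (hF : GoodF ℓ F) {R : Subgroup Y} (hR : IsPGroup ℓ R) {a b : Y → F}
    (ha : ∀ r ∈ R, ∀ x, a (r * x * r⁻¹) = a x) (hb : ∀ r ∈ R, ∀ x, b (r * x * r⁻¹) = b x) :
    br R (mulF a b) = mulF (br R a) (br R b) := by
  have hch := hF.char
  have hfin := Fintype.ofFinite Y
  classical
  funext g
  unfold mulF
  by_cases hg : g ∈ Subgroup.centralizer (R : Set Y)
  · have h2 : br R (fun x => ∑ᶠ t, a t * b (t⁻¹ * x)) g = ∑ᶠ t, a t * b (t⁻¹ * g) := by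
      simp only [br, if_pos hg]
    rw [h2, finsum_eq_sum_of_fintype, finsum_eq_sum_of_fintype]
    rw [H20.conj_sum hF.prime (killF hch) R hR (fun t => a t * b (t⁻¹ * g)) (fun r hr t => by
      show a (r * t * r⁻¹) * b ((r * t * r⁻¹)⁻¹ * g) = a t * b (t⁻¹ * g)
      have h3 : r * g = g * r := Subgroup.mem_centralizer_iff.1 hg r hr
      have h4 : (r * t * r⁻¹)⁻¹ * g = r * (t⁻¹ * g) * r⁻¹ := by
        have h5 : r⁻¹ * g = g * r⁻¹ := by
          calc r⁻¹ * g = r⁻¹ * (g * r) * r⁻¹ := by group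
            _ = r⁻¹ * (r * g) * r⁻¹ := by rw [h3]
            _ = g * r⁻¹ := by group
        calc (r * t * r⁻¹)⁻¹ * g = r * t⁻¹ * (r⁻¹ * g) := by group
          _ = r * t⁻¹ * (g * r⁻¹) := by rw [h5]
          _ = r * (t⁻¹ * g) * r⁻¹ := by group
      rw [ha r hr, h4, hb r hr])]
    apply Finset.sum_congr rfl
    intro t _
    by_cases ht : t ∈ Subgroup.centralizer (R : Set Y)
    · have h6 : t⁻¹ * g ∈ Subgroup.centralizer (R : Set Y) := mul_mem (inv_mem ht) hg
      simp only [br, if_pos ht, if_pos h6]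
    · simp only [br, if_neg ht, zero_mul]
  · have h2 : br R (fun x => ∑ᶠ t, a t * b (t⁻¹ * x)) g = 0 := by
      simp only [br, if_neg hg]
    rw [h2, finsum_eq_sum_of_fintype, eq_comm]
    apply Finset.sum_eq_zero
    intro t _
    by_cases ht : t ∈ Subgroup.centralizer (R : Set Y)
    · have h6 : ¬ t⁻¹ * g ∈ Subgroup.centralizer (R : Set Y) := by
        intro hc
        apply hg
        have h7 := mul_mem ht hc
        rwa [mul_inv_cancel_left] at h7
      simp only [br, if_neg h6, mul_zero]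
    · simp only [br, if_neg ht, zero_mul]

/-- evaluation of invariant functions through the Brauer map -/
theorem ev_br {ℓ : ℕ} (hF : GoodF ℓ F) {R X : Subgroup Y} (hR : IsPGroup ℓ R) (hRX : R ≤ X)
    (hXN : X ≤ Subgroup.normalizer (R : Set Y)) {n : ℕ} {ρ : X →* Matrix (Fin n) (Fin n) F}
    (hρ : IsIrr ρ) {a : Y → F} (ha : ∀ r ∈ R, ∀ x, a (r * x * r⁻¹) = a x) :
    ev ρ (fun t : X => a t) = ev ρ (fun t : X => br R a t) := by
  have hch := hF.char
  have hfin := Fintype.ofFinite X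
  classical
  have hN : (R.subgroupOf X).Normal := by
    refine ⟨fun r hr x => ?_⟩
    rw [Subgroup.mem_subgroupOf] at hr ⊢
    exact (Subgroup.mem_normalizer_iff.1 (hXN x.2) r).1 hr
  have hR' : IsPGroup ℓ (R.subgroupOf X) := hR.comap_subtype
  have htr := (H20.nls ℓ F hF X (R.subgroupOf X) hN hR' n ρ hρ).1
  unfold ev
  rw [finsum_eq_sum_of_fintype, finsum_eq_sum_of_fintype]
  have hV : ∀ v : Matrix (Fin n) (Fin n) F, ℓ • v = 0 := by
    intro v
    ext i j
    rw [Matrix.smul_apply, killF hch, Matrix.zero_apply]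
  rw [H20.conj_sum hF.prime hV (R.subgroupOf X) hR' (fun t : X => a t • ρ t) (fun r hr t => by
    show a ((r * t * r⁻¹ : X) : Y) • ρ (r * t * r⁻¹) = a t • ρ t
    have h1 : a ((r * t * r⁻¹ : X) : Y) = a t := ha r hr t
    rw [h1, map_mul, map_mul, htr r hr, htr r⁻¹ (Subgroup.inv_mem _ hr), one_mul, mul_one])]
  apply Finset.sum_congr rfl
  intro t _
  have hiff : t ∈ Subgroup.centralizer ((R.subgroupOf X : Subgroup X) : Set X) ↔
      (t : Y) ∈ Subgroup.centralizer (R : Set Y) := by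
    rw [Subgroup.mem_centralizer_iff, Subgroup.mem_centralizer_iff]
    constructor
    · intro h r hr
      exact congrArg Subtype.val (h ⟨r, hRX hr⟩ hr)
    · intro h r hr
      exact Subtype.ext (h r hr)
  by_cases ht : (t : Y) ∈ Subgroup.centralizer (R : Set Y)
  · rw [if_pos (hiff.2 ht)]
    simp only [br, if_pos ht]
  · rw [if_neg (fun hc => ht (hiff.1 hc))]
    simp only [br, if_neg ht, zero_smul]

/-- if `f` does not vanish somewhere on `C(R)`, some translate of `γ` centralises `R` -/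
theorem exists_tw {ℓ : ℕ} (hF : GoodF ℓ F) {R : Subgroup Y} (hR : IsPGroup ℓ R) {f : Y → F}
    (hf : IsCl f) {γ : MulAut Y} {w wi : Y → F} (h : Unt f γ w wi) {x : Y}
    (hx : x ∈ Subgroup.centralizer (R : Set Y)) (hfx : f x ≠ 0) :
    ∃ a : Y, ∀ r ∈ R, tw γ a r = r := by
  have hch := hF.char
  have hfin := Fintype.ofFinite Y
  have : Fact ℓ.Prime := ⟨hF.prime⟩
  classical
  let _ : MulAction R Y :=
    { smul := fun r t => r * t * (γ⁻¹ (r : Y))⁻¹
      one_smul := fun t => by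
        show (1 : Y) * t * (γ⁻¹ (1 : Y))⁻¹ = t
        rw [one_mul, map_one, inv_one, mul_one]
      mul_smul := fun r s t => by
        show ((r : Y) * s) * t * (γ⁻¹ ((r : Y) * s))⁻¹ =
          r * (s * t * (γ⁻¹ (s : Y))⁻¹) * (γ⁻¹ (r : Y))⁻¹
        rw [map_mul]
        group }
  have hsm : ∀ (r : R) (t : Y), r • t = r * t * (γ⁻¹ (r : Y))⁻¹ := fun _ _ => rfl
  have hwi := unt_wi hf h
  have h1 : f x = ∑ t, wi t * w (t⁻¹ * x) := by
    rw [← h.unit']
    exact finsum_eq_sum_of_fintype _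
  have h2 : ∀ (r : R) (t : Y), wi (r • t) * w ((r • t)⁻¹ * x) = wi t * w (t⁻¹ * x) := by
    intro r t
    rw [hsm, hwi]
    congr 1
    have h3 : (r : Y)⁻¹ * x = x * (r : Y)⁻¹ :=
      Subgroup.mem_centralizer_iff.1 hx _ (R.inv_mem r.2)
    have h4 : ((r : Y) * t * (γ⁻¹ (r : Y))⁻¹)⁻¹ * x = γ⁻¹ (r : Y) * (t⁻¹ * x) * (r : Y)⁻¹ := by
      calc ((r : Y) * t * (γ⁻¹ (r : Y))⁻¹)⁻¹ * x = γ⁻¹ (r : Y) * t⁻¹ * ((r : Y)⁻¹ * x) := by group
        _ = γ⁻¹ (r : Y) * (t⁻¹ * x) * (r : Y)⁻¹ := by rw [h3]; group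
    rw [h4, h.comm]
  rw [Pool.Agent.PP.H74.orbit_sum hR (killF hch) (fun t => wi t * w (t⁻¹ * x)) h2] at h1
  have h5 : ∃ t ∈ Finset.univ.filter (fun t : Y => ∀ r : R, r • t = t),
      wi t * w (t⁻¹ * x) ≠ 0 := by
    by_contra hcon
    push Not at hcon
    apply hfx
    rw [h1]
    exact Finset.sum_eq_zero hcon
  obtain ⟨t, ht, _⟩ := h5
  rw [Finset.mem_filter] at ht
  refine ⟨t⁻¹, fun r hr => ?_⟩
  have h6 := ht.2 ⟨r, hr⟩
  rw [hsm] at h6
  have h7 : r * t = t * γ⁻¹ r := by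
    rw [← mul_inv_eq_iff_eq_mul]
    exact h6
  show γ (t⁻¹ * r * t⁻¹⁻¹) = r
  rw [inv_inv, mul_assoc, h7, inv_mul_cancel_left, MulAut.apply_inv_self]

theorem inx : InxStmt := by
  intro ℓ F _ hF Y _ _ d hd hnd f γ w wi hfb hunt φ hφ hfφ
  have hfin := Fintype.ofFinite Y
  obtain ⟨n, ρ, hρ, rfl⟩ := hφ
  obtain ⟨hdp, hbot, hchain⟩ := mem_chainsOn.1 hd
  have htop : top d ∈ d := H97.top_mem hchain ⟨⊥, hbot⟩
  have hR : IsPGroup ℓ (top d) := H97.mem_psubIn_top.1 (hdp htop)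
  have hRX : top d ≤ stab d := by
    intro x hx
    rw [H97.mem_stab]
    intro D hD
    exact hnd D hD hx
  have hXN : stab d ≤ Subgroup.normalizer ((top d : Subgroup Y) : Set Y) :=
    fun x hx => (H97.mem_stab.1 hx) _ htop
  have hfcl : IsCl f := hfb.1.1
  have hev : ev ρ (fun t : stab d => f t) = 1 := ev_f_one hF hρ hfcl hfφ
  have hn : Nonempty (Fin n) := ⟨⟨0, hρ.1⟩⟩
  -- a point of the centraliser where `f` is not zero
  have hx : ∃ x ∈ Subgroup.centralizer ((top d : Subgroup Y) : Set Y), f x ≠ 0 := by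
    by_contra hcon
    push Not at hcon
    rw [ev_br hF hR hRX hXN hρ (fun r _ x => hfcl x r)] at hev
    have h1 : (fun t : stab d => br (top d) f t) = 0 := by
      funext t
      show br (top d) f t = 0
      unfold br
      split_ifs with ht
      · exact hcon _ ht
      · rfl
    rw [h1, ev, finsum_eq_zero_of_forall_eq_zero (fun t => by
      show (0 : F) • ρ t = 0
      rw [zero_smul])] at hev
    exact zero_ne_one hev
  obtain ⟨x, hxc, hfx⟩ := hx
  obtain ⟨a, ha⟩ := exists_tw hF hR hfcl hunt hxc hfx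
  refine ⟨⟨a, ha⟩, ?_⟩
  -- the unit of type `tw γ a`
  obtain ⟨v, vi, hv⟩ : ∃ v vi, Unt f (tw γ a) v vi := ⟨_, _, Unt.shift hfcl hunt a⟩
  set δ := tw γ a with hδ
  have hδR : ∀ r ∈ top d, δ⁻¹ r = r := by
    intro r hr
    have h1 : δ r = r := ha r hr
    calc δ⁻¹ r = δ⁻¹ (δ r) := by rw [h1]
      _ = r := MulAut.inv_apply_self Y δ r
  have hδfix : FixC δ d := by
    intro D hD
    ext y
    rw [Subgroup.mem_map]
    constructor
    · rintro ⟨z, hz, rfl⟩
      show δ z ∈ D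
      have h1 : δ z = z := ha z (H97.le_tp hD hz)
      rwa [h1]
    · intro hy
      exact ⟨y, hy, ha y (H97.le_tp hD hy)⟩
  have hvinv : ∀ r ∈ top d, ∀ y, v (r * y * r⁻¹) = v y := by
    intro r hr y
    have h1 := hv.comm r y
    rwa [hδR r hr] at h1
  have hviinv : ∀ r ∈ top d, ∀ y, vi (r * y * r⁻¹) = vi y := by
    intro r hr y
    have h1 := unt_wi hfcl hv r y
    rwa [hδR r hr] at h1
  have hCX : Subgroup.centralizer ((top d : Subgroup Y) : Set Y) ≤ stab d := H97.cent_top_le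
  have hunit : ev ρ (fun t : stab d => v t) *
      ev ρ (fun t : stab d => vi t) = 1 := by
    rw [ev_br hF hR hRX hXN hρ hvinv, ev_br hF hR hRX hXN hρ hviinv, ← ev_mulF,
      ← (H20.brm ℓ F hF Y (top d) (stab d) hR hCX hXN).2.1, ← br_mul hF hR hvinv hviinv, hv.unit,
      ← ev_br hF hR hRX hXN hρ (fun r _ x => hfcl x r), hev]
  have hunit' := mul_eq_one_comm.1 hunit
  have hkey : ∀ t t' : stab d, (t' : Y) = δ t → tr ρ t' = tr ρ t := by
    intro t t' htt
    have h1 := ev_typ ρ δ hv.comm t t' htt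
    show (ρ t').trace = (ρ t).trace
    calc (ρ t').trace = ((ev ρ (fun t : stab d => vi t) *
          ev ρ (fun t : stab d => v t)) * ρ t').trace := by
          rw [hunit', one_mul]
      _ = (ev ρ (fun t : stab d => vi t) *
          (ρ t * ev ρ (fun t : stab d => v t))).trace := by
          rw [mul_assoc, h1]
      _ = ((ρ t * ev ρ (fun t : stab d => v t)) *
          ev ρ (fun t : stab d => vi t)).trace := by
          rw [Matrix.trace_mul_comm]
      _ = (ρ t).trace := by rw [mul_assoc, hunit, mul_one]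
  intro b hb t t' htt
  have h1 : tw γ b = δ * MulAut.conj (a⁻¹ * b) := by
    rw [hδ]
    unfold tw
    rw [mul_assoc, ← map_mul, mul_inv_cancel_left]
  have h2 : FixC (MulAut.conj (a⁻¹ * b)) d := by
    have h3 := FixC.mul (FixC.inv hδfix) hb
    rwa [h1, inv_mul_cancel_left] at h3
  have hm : a⁻¹ * b ∈ stab d := by
    rw [H97.mem_stab]
    intro D hD
    rw [Subgroup.mem_normalizer_iff_map_conj_eq]
    exact h2 D hD
  let m : stab d := ⟨a⁻¹ * b, hm⟩
  have h4 : (t' : Y) = δ ((m * t * m⁻¹ : stab d) : Y) := by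
    rw [htt, h1]
    rfl
  rw [hkey (m * t * m⁻¹) t' h4]
  show (ρ (m * t * m⁻¹)).trace = (ρ t).trace
  rw [map_mul, Matrix.trace_mul_comm, ← map_mul]
  congr 2
  group

end inx

end Pool.Agent.PP.H21
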