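import Pool.Agent.Helper18_PP.StmtsDZ
import Pool.Agent.Helper20_PP.Ibr

/-!
Squad PP (AWC), part DZ, module PSF: the idempotent of the quotient and its positivity.
-/

open scoped BigOperators

noncomputable section

namespace Pool.Agent.PP.H21

open Pool.Agent.PP Pool.Agent.PP.H20

section kl

variable {F Γ : Type} [Field F] [Group Γ] {n : ℕ}

/-- `X ⊗ t` -/
def kl (t : Γ) : Matrix (Fin n) (Fin n) F →ₗ[F] Matrix (Fin n) (Fin n) (MonoidAlgebra F Γ) where
  toFun X := fun i j => MonoidAlgebra.single t (X i j)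
  map_add' X Y := by
    refine Matrix.ext fun i j => ?_
    exact MonoidAlgebra.single_add t (X i j) (Y i j)
  map_smul' c X := by
    refine Matrix.ext fun i j => ?_
    exact (MonoidAlgebra.smul_single' c t (X i j)).symm

omit [Group Γ] in
theorem kl_apply (t : Γ) (X : Matrix (Fin n) (Fin n) F) (i j : Fin n) :
    kl t X i j = MonoidAlgebra.single t (X i j) := rfl

theorem kl_mul (s t : Γ) (X Y : Matrix (Fin n) (Fin n) F) :
    kl s X * kl t Y = kl (s * t) (X * Y) := by
  refine Matrix.ext fun i j => ?_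
  rw [kl_apply, Matrix.mul_apply, Matrix.mul_apply]
  simp_rw [kl_apply, MonoidAlgebra.single_mul_single]
  exact (map_sum (MonoidAlgebra.singleAddHom (s * t)) _ _).symm

theorem kl_scalar (t : Γ) (c : F) :
    kl t (Matrix.diagonal (fun _ : Fin n => c)) =
      Matrix.diagonal (fun _ : Fin n => MonoidAlgebra.single t c) := by
  refine Matrix.ext fun i j => ?_
  rw [kl_apply]
  by_cases h : i = j
  · subst h
    rw [Matrix.diagonal_apply_eq, Matrix.diagonal_apply_eq]
  · rw [Matrix.diagonal_apply_ne _ h, Matrix.diagonal_apply_ne _ h, MonoidAlgebra.single_zero]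

theorem kl_one_one : kl (1 : Γ) (1 : Matrix (Fin n) (Fin n) F) = 1 := by
  rw [← Matrix.diagonal_one, kl_scalar, ← Matrix.diagonal_one, ← MonoidAlgebra.one_def]

end kl

section psi

variable {F G : Type} [Field F] [Group G] {N : Subgroup G} [N.Normal] {n : ℕ}

/-- the monoid homomorphism `g ↦ α(g) ⊗ gN` -/
def psiH (N : Subgroup G) [N.Normal] (α : G →* Matrix (Fin n) (Fin n) F) :
    G →* Matrix (Fin n) (Fin n) (MonoidAlgebra F (G ⧸ N)) where
  toFun g := kl (g : G ⧸ N) (α g)
  map_one' := by rw [map_one, QuotientGroup.mk_one, kl_one_one]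
  map_mul' x y := by rw [map_mul, QuotientGroup.mk_mul, kl_mul]

/-- the algebra homomorphism `FG → M_n(F) ⊗ F(G/N)` -/
def Psi (N : Subgroup G) [N.Normal] (α : G →* Matrix (Fin n) (Fin n) F) :
    MonoidAlgebra F G →ₐ[F] Matrix (Fin n) (Fin n) (MonoidAlgebra F (G ⧸ N)) :=
  MonoidAlgebra.lift F (Matrix (Fin n) (Fin n) (MonoidAlgebra F (G ⧸ N))) G (psiH N α)

theorem Psi_single (α : G →* Matrix (Fin n) (Fin n) F) (g : G) (c : F) :
    Psi N α (MonoidAlgebra.single g c) = c • kl (g : G ⧸ N) (α g) := by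
  rw [Psi, MonoidAlgebra.lift_single]
  rfl

omit [N.Normal] in
/-- the sum over a coset -/
theorem sum_coset {V : Type} [AddCommMonoid V] [Fintype G] [Fintype N] [DecidableEq (G ⧸ N)]
    (φ : G → V) (g : G) :
    ∑ x : G, (if (x : G ⧸ N) = (g : G ⧸ N) then φ x else 0) = ∑ h : N, φ (g * h) := by
  rw [← Finset.sum_filter]
  symm
  apply Finset.sum_bij (fun (h : N) _ => g * (h : G))
  · intro h _
    rw [Finset.mem_filter]
    refine ⟨Finset.mem_univ _, ?_⟩
    rw [eq_comm, QuotientGroup.eq, inv_mul_cancel_left]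
    exact h.2
  · intro h _ h' _ hh
    exact Subtype.ext (mul_left_cancel hh)
  · intro x hx
    rw [Finset.mem_filter, eq_comm, QuotientGroup.eq] at hx
    exact ⟨⟨g⁻¹ * x, hx.2⟩, Finset.mem_univ _, mul_inv_cancel_left _ _⟩
  · intro h _
    rfl

theorem Psi_coeff [Finite G] (α : G →* Matrix (Fin n) (Fin n) F) (a : G → F) (g : G) (i j : Fin n) :
    (Psi N α (toMA a) i j).coeff (g : G ⧸ N) = (∑ᶠ h : N, a (g * h) • α (g * h)) i j := by
  classical
  have := Fintype.ofFinite G
  rw [finsum_eq_sum_of_fintype, toMA_eq, map_sum, Matrix.sum_apply, MonoidAlgebra.coeff_sum,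
    Finsupp.finsetSum_apply, Matrix.sum_apply]
  simp_rw [Psi_single]
  rw [← sum_coset (fun x => (a x • α x) i j) g]
  apply Finset.sum_congr rfl
  intro x _
  rw [Matrix.smul_apply, kl_apply, MonoidAlgebra.smul_single', MonoidAlgebra.coeff_single,
    Finsupp.single_apply]
  rfl

theorem Psi_scalar_inj (hn : 0 < n) {Γ : Type} [Group Γ] {x y : MonoidAlgebra F Γ}
    (h : Matrix.scalar (Fin n) x = Matrix.scalar (Fin n) y) : x = y := by
  have h1 := congrFun (congrFun h ⟨0, hn⟩) ⟨0, hn⟩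
  rwa [Matrix.scalar_apply, Matrix.scalar_apply, Matrix.diagonal_apply_eq,
    Matrix.diagonal_apply_eq] at h1

theorem exists_pre [Finite G] (α : G →* Matrix (Fin n) (Fin n) F)
    (hα : IsIrr (α.comp N.subtype)) [Fintype N] (g : G) (X : Matrix (Fin n) (Fin n) F) :
    ∃ c : N → F, Psi N α (∑ h : N, MonoidAlgebra.single (g * (h : G)) (c h)) =
      kl (g : G ⧸ N) X := by
  have h1 : α g⁻¹ * X ∈ Submodule.span F (Set.range (α.comp N.subtype)) := by
    rw [hα.2]
    exact Submodule.mem_top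
  obtain ⟨c, hc⟩ := (Submodule.mem_span_range_iff_exists_fun F).mp h1
  refine ⟨c, ?_⟩
  rw [map_sum]
  have h2 : ∀ h : N, Psi N α (MonoidAlgebra.single (g * (h : G)) (c h)) =
      kl (g : G ⧸ N) (α g * (c h • α h)) := by
    intro h
    have h3 : ((g * (h : G) : G) : G ⧸ N) = g := by
      rw [eq_comm, QuotientGroup.eq, inv_mul_cancel_left]
      exact h.2
    rw [Psi_single, h3, ← map_smul, map_mul, Matrix.mul_smul]
  simp_rw [h2]
  rw [← map_sum, ← Finset.mul_sum]
  have h4 : ∑ h : N, c h • α h = α g⁻¹ * X := hc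
  rw [h4, ← mul_assoc, ← map_mul, mul_inv_cancel, map_one, one_mul]

omit [N.Normal] in
theorem toMA_comm_single [Finite G] {e : G → F} (he : IsCl e) (g : G) (c : F) :
    toMA e * MonoidAlgebra.single g c = MonoidAlgebra.single g c * toMA e := by
  apply MonoidAlgebra.ext
  ext h
  rw [MonoidAlgebra.coeff_mul_single_apply, MonoidAlgebra.coeff_single_mul_apply, toMA_coeff,
    toMA_coeff, mul_comm]
  congr 1
  rw [← he (g⁻¹ * h) g]
  congr 1
  group

omit [N.Normal] in
theorem toMA_comm [Finite G] {e : G → F} (he : IsCl e) (x : MonoidAlgebra F G) :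
    toMA e * x = x * toMA e := by
  induction x using MonoidAlgebra.induction_linear with
  | zero => simp
  | add a b ha hb => rw [mul_add, add_mul, ha, hb]
  | single g c => exact toMA_comm_single he g c

theorem psi_comm [Finite G] (α : G →* Matrix (Fin n) (Fin n) F)
    (hα : IsIrr (α.comp N.subtype)) {e : G → F} (he : IsCl e) (g : G)
    (X : Matrix (Fin n) (Fin n) F) :
    Psi N α (toMA e) * kl (g : G ⧸ N) X = kl (g : G ⧸ N) X * Psi N α (toMA e) := by
  have := Fintype.ofFinite N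
  obtain ⟨c, hc⟩ := exists_pre α hα g X
  rw [← hc, ← map_mul, toMA_comm he, map_mul]

theorem exists_f [Finite G] (α : G →* Matrix (Fin n) (Fin n) F)
    (hα : IsIrr (α.comp N.subtype)) {e : G → F} (he : IsIdem e) :
    ∃ f : G ⧸ N → F, Psi N α (toMA e) = Matrix.scalar (Fin n) (toMA f) ∧ IsIdem f := by
  obtain ⟨φ, hφ⟩ : Psi N α (toMA e) ∈ Set.range (Matrix.scalar (Fin n)) := by
    rw [Matrix.mem_range_scalar_iff_commute_single']
    intro i j
    have h1 := psi_comm (N := N) α hα he.1 1 (Matrix.single i j 1)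
    have h2 : kl ((1 : G) : G ⧸ N) (Matrix.single i j (1 : F)) =
        Matrix.single i j (1 : MonoidAlgebra F (G ⧸ N)) := by
      refine Matrix.ext fun a b => ?_
      rw [kl_apply, Matrix.single_apply, Matrix.single_apply]
      by_cases h : i = a ∧ j = b
      · rw [if_pos h, if_pos h]
        rfl
      · rw [if_neg h, if_neg h, MonoidAlgebra.single_zero]
    rw [h2] at h1
    exact h1.symm
  obtain ⟨f, rfl⟩ := toMA_surjective φ
  refine ⟨f, hφ.symm, ?_, ?_⟩
  · intro t y
    obtain ⟨g, rfl⟩ := QuotientGroup.mk_surjective y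
    have h1 := psi_comm (N := N) α hα he.1 g 1
    rw [← hφ, ← Matrix.diagonal_one, kl_scalar, ← Matrix.scalar_apply, ← map_mul, ← map_mul] at h1
    have h2 := Psi_scalar_inj hα.1 h1
    have h3 := congrArg (fun x => x.coeff ((g : G ⧸ N) * t)) h2
    simp only [MonoidAlgebra.coeff_mul_single_apply, MonoidAlgebra.coeff_single_mul_apply,
      toMA_coeff, mul_one, one_mul, inv_mul_cancel_left] at h3
    exact h3
  · apply toMA_injective
    apply Psi_scalar_inj hα.1
    rw [toMA_mulF, map_mul, hφ, ← map_mul, ← toMA_mulF, he.2]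

theorem f_formula [Finite G] (α : G →* Matrix (Fin n) (Fin n) F) {e : G → F} {f : G ⧸ N → F}
    (h : Psi N α (toMA e) = Matrix.scalar (Fin n) (toMA f)) (g : G) :
    ∑ᶠ h : N, e (g * h) • α (g * h) = Matrix.scalar (Fin n) (f g) := by
  refine Matrix.ext fun i j => ?_
  rw [← Psi_coeff, h, Matrix.scalar_apply, Matrix.scalar_apply]
  by_cases hij : i = j
  · subst hij
    rw [Matrix.diagonal_apply_eq, Matrix.diagonal_apply_eq]
    rfl
  · rw [Matrix.diagonal_apply_ne _ hij, Matrix.diagonal_apply_ne _ hij]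
    rfl

end psi

section tr

variable {F H : Type} [Field F] [Group H]

/-- the solutions of `d x d⁻¹ = q x q⁻¹` in `Q` -/
theorem card_conj [Finite H] (Q : Subgroup H) (x q : H) (hq : q ∈ Q) :
    Nat.card {d : Q // (d : H) * x * (d : H)⁻¹ = q * x * q⁻¹} =
      Nat.card (Subgroup.centralizer ({x} : Set H) ⊓ Q : Subgroup H) := by
  apply Nat.card_congr
  refine
    { toFun := fun d => ⟨q⁻¹ * (d.1 : H), ?_, Q.mul_mem (Q.inv_mem hq) d.1.2⟩
      invFun := fun c => ⟨⟨q * (c : H), Q.mul_mem hq c.2.2⟩, ?_⟩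
      left_inv := fun d => Subtype.ext (Subtype.ext (mul_inv_cancel_left _ _))
      right_inv := fun c => Subtype.ext (inv_mul_cancel_left _ _) }
  · have h2 := mul_inv_eq_iff_eq_mul.mp d.2
    apply Subgroup.mem_centralizer_singleton_iff.mpr
    rw [mul_assoc, h2]
    group
  · have h1 := Subgroup.mem_centralizer_singleton_iff.mp c.2.1
    show q * (c : H) * x * (q * (c : H))⁻¹ = q * x * q⁻¹
    rw [mul_assoc q, h1]
    group

theorem card_conj_top [Finite H] (x q : H) :
    Nat.card {d : H // d * x * d⁻¹ = q * x * q⁻¹} =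
      Nat.card (Subgroup.centralizer ({x} : Set H)) := by
  apply Nat.card_congr
  refine
    { toFun := fun d => ⟨q⁻¹ * (d.1 : H), ?_⟩
      invFun := fun c => ⟨q * (c : H), ?_⟩
      left_inv := fun d => Subtype.ext (mul_inv_cancel_left _ _)
      right_inv := fun c => Subtype.ext (inv_mul_cancel_left _ _) }
  · have h2 := mul_inv_eq_iff_eq_mul.mp d.2
    apply Subgroup.mem_centralizer_singleton_iff.mpr
    rw [mul_assoc, h2]
    group
  · have h1 := Subgroup.mem_centralizer_singleton_iff.mp c.2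
    show q * (c : H) * x * (q * (c : H))⁻¹ = q * x * q⁻¹
    rw [mul_assoc q, h1]
    group

/-- the trace of a group element -/
theorem trace_single [Finite H] (Q : Subgroup H) [Fintype Q] (x : H) :
    ∑ d : Q, MonoidAlgebra.single ((d : H) * x * (d : H)⁻¹) (1 : F) =
      (Nat.card (Subgroup.centralizer ({x} : Set H) ⊓ Q : Subgroup H) : F) •
        toMA (clsum F Q x) := by
  classical
  apply MonoidAlgebra.ext
  ext y
  rw [MonoidAlgebra.coeff_sum, Finsupp.finsetSum_apply, MonoidAlgebra.coeff_smul,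
    Finsupp.smul_apply, toMA_coeff, clsum, smul_eq_mul]
  simp_rw [MonoidAlgebra.coeff_single, Finsupp.single_apply]
  rw [Finset.sum_boole]
  by_cases hy : ∃ q ∈ Q, y = q * x * q⁻¹
  · rw [if_pos hy, mul_one]
    obtain ⟨q, hq, rfl⟩ := hy
    rw [← card_conj Q x q hq, Nat.card_eq_fintype_card, Fintype.card_subtype]
  · rw [if_neg hy, mul_zero, Finset.filter_eq_empty_iff.mpr, Finset.card_empty, Nat.cast_zero]
    intro d _ hd
    exact hy ⟨d, d.2, hd.symm⟩

/-- elements of the projective centre are traces -/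
theorem exists_trace [Fintype H] {ℓ : ℕ} (hF : CharP F ℓ) {a : H → F} (ha : PrC ℓ a) :
    ∃ v : H → F, ∀ y, ∑ n : H, v (n⁻¹ * y * n) = a y := by
  classical
  let rep : H → H := fun y => Quotient.out (ConjClasses.mk y)
  have hrep : ∀ y, ∃ g, g * rep y * g⁻¹ = y := by
    intro y
    have h1 : ConjClasses.mk (rep y) = ConjClasses.mk y := Quotient.out_eq _
    rw [ConjClasses.mk_eq_mk_iff_isConj, isConj_iff] at h1
    exact h1
  have hrep2 : ∀ y n : H, rep (n⁻¹ * y * n) = rep y := by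
    intro y n
    have h1 : ConjClasses.mk (n⁻¹ * y * n) = ConjClasses.mk y := by
      rw [ConjClasses.mk_eq_mk_iff_isConj, isConj_iff]
      exact ⟨n, by group⟩
    show Quotient.out (ConjClasses.mk _) = Quotient.out (ConjClasses.mk _)
    rw [h1]
  let C : H → ℕ := fun y => Nat.card (Subgroup.centralizer ({y} : Set H))
  refine ⟨fun x => if x = rep x then a x * (C x : F)⁻¹ else 0, fun y => ?_⟩
  obtain ⟨g, hg⟩ := hrep y
  have h1 : ∀ n : H, (if n⁻¹ * y * n = rep (n⁻¹ * y * n) then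
      a (n⁻¹ * y * n) * (C (n⁻¹ * y * n) : F)⁻¹ else 0) =
      if n * rep y * n⁻¹ = y then a y * (C (rep y) : F)⁻¹ else 0 := by
    intro n
    rw [hrep2]
    have h2 : n⁻¹ * y * n = rep y ↔ n * rep y * n⁻¹ = y := by
      constructor
      · intro h
        rw [← h]
        group
      · intro h
        calc n⁻¹ * y * n = n⁻¹ * (n * rep y * n⁻¹) * n := by rw [h]
          _ = rep y := by group
    by_cases h3 : n⁻¹ * y * n = rep y
    · rw [if_pos h3, if_pos (h2.mp h3), h3]
      have h4 : a (rep y) = a y := by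
        conv_rhs => rw [← hg]
        exact (ha.1 _ _).symm
      rw [h4]
    · rw [if_neg h3, if_neg (fun h => h3 (h2.mpr h))]
  simp_rw [h1]
  rw [← Finset.sum_filter, Finset.sum_const, nsmul_eq_mul]
  have h5 : (Finset.univ.filter (fun n : H => n * rep y * n⁻¹ = y)).card = C (rep y) := by
    have h6 := card_conj_top (rep y) g
    rw [hg, Nat.card_eq_fintype_card, Fintype.card_subtype] at h6
    exact h6
  rw [h5]
  by_cases h7 : ℓ ∣ C (rep y)
  · have h8 : a y = 0 := by
      have h9 := ha.2 (rep y) h7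
      rw [← hg, ha.1]
      exact h9
    rw [h8, zero_mul, mul_zero]
  · have h8 : (C (rep y) : F) ≠ 0 := by
      rwa [Ne, CharP.cast_eq_zero_iff F ℓ]
    field_simp

end tr

section pos

variable {F G : Type} [Field F] [Group G] {N : Subgroup G} [N.Normal] {n : ℕ}

/-- sums over `M` as double sums over `M / N` and `N` -/
theorem sum_regroup {V : Type} [AddCommMonoid V] (M : Subgroup G) (hNM : N ≤ M) [Fintype M]
    [Fintype N] [Fintype (M.map (QuotientGroup.mk' N))] (φ : G → V) :
    ∃ s : M.map (QuotientGroup.mk' N) → G, (∀ t, ((s t : G) : G ⧸ N) = t) ∧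
      ∑ d : M, φ d = ∑ t, ∑ k : N, φ (s t * k) := by
  have h1 : ∀ t : M.map (QuotientGroup.mk' N), ∃ g ∈ M, ((g : G) : G ⧸ N) = t := by
    intro t
    exact Subgroup.mem_map.mp t.2
  choose s hsM hs using h1
  refine ⟨s, hs, ?_⟩
  rw [← Fintype.sum_prod_type' (f := fun t (k : N) => φ (s t * k))]
  symm
  apply Fintype.sum_bijective (fun p : (M.map (QuotientGroup.mk' N)) × N =>
    (⟨s p.1 * p.2, M.mul_mem (hsM _) (hNM p.2.2)⟩ : M))
  · constructor
    · rintro ⟨t, k⟩ ⟨t', k'⟩ h
      have h2 : s t * (k : G) = s t' * k' := congrArg Subtype.val h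
      have h3 : t = t' := by
        apply Subtype.ext
        rw [← hs t, ← hs t', QuotientGroup.eq]
        have h4 : (s t)⁻¹ * s t' = k * (k' : G)⁻¹ := by
          rw [eq_mul_inv_iff_mul_eq, mul_assoc, ← h2, inv_mul_cancel_left]
        rw [h4]
        exact N.mul_mem k.2 (N.inv_mem k'.2)
      subst h3
      rw [Subtype.ext (mul_left_cancel h2)]
    · intro d
      have h2 : ((d : G) : G ⧸ N) ∈ M.map (QuotientGroup.mk' N) := ⟨d, d.2, rfl⟩
      have h3 : (s ⟨_, h2⟩)⁻¹ * (d : G) ∈ N := QuotientGroup.eq.mp (hs ⟨_, h2⟩)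
      refine ⟨(⟨_, h2⟩, ⟨_, h3⟩), Subtype.ext ?_⟩
      exact mul_inv_cancel_left _ _
  · intro p
    rfl

omit [N.Normal] in
theorem nil_of_iter [Finite G] {a e : G → F} (he : IsIdem e) {k : ℕ}
    (h : (mulF a)^[k] e = 0) : IsNilpotent (toMA a * toMA e) := by
  refine ⟨k + 1, ?_⟩
  have hc : Commute (toMA a) (toMA e) := (toMA_comm he.1 _).symm
  have h2 : toMA a ^ k * toMA e = 0 := by
    rw [← mulF_iterate, h]
    exact (maE (F := F) (H := G)).map_zero
  rw [hc.mul_pow, pow_succ' (toMA a), pow_succ' (toMA e), mul_assoc,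
    ← mul_assoc (toMA a ^ k), h2, zero_mul, mul_zero]

omit [N.Normal] in
theorem comm_of [Finite G] {a b : G → F} (h : ∀ g, b g ≠ 0 → ∀ x, a (g * x * g⁻¹) = a x) :
    Commute (toMA a) (toMA b) := by
  have := Fintype.ofFinite G
  rw [toMA_eq b]
  apply Commute.sum_right
  intro g _
  by_cases hg : b g = 0
  · rw [hg, MonoidAlgebra.single_zero]
    exact Commute.zero_right _
  · show toMA a * MonoidAlgebra.single g (b g) = MonoidAlgebra.single g (b g) * toMA a
    apply MonoidAlgebra.ext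
    ext y
    rw [MonoidAlgebra.coeff_mul_single_apply, MonoidAlgebra.coeff_single_mul_apply, toMA_coeff,
      toMA_coeff, mul_comm]
    congr 1
    rw [← h g hg (g⁻¹ * y)]
    congr 1
    group

omit [N.Normal] in
theorem clsum_comm [Finite G] (M : Subgroup G) {x y : G} (hy : y ∈ M) :
    Commute (toMA (clsum F M x)) (toMA (clsum F M y)) := by
  apply comm_of
  intro g hg z
  have hgM : g ∈ M := by
    by_contra hgM
    apply hg
    rw [clsum, if_neg]
    rintro ⟨q, hq, rfl⟩
    exact hgM (M.mul_mem (M.mul_mem hq hy) (M.inv_mem hq))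
  unfold clsum
  have h1 : (∃ q ∈ M, g * z * g⁻¹ = q * x * q⁻¹) ↔ ∃ q ∈ M, z = q * x * q⁻¹ := by
    constructor
    · rintro ⟨q, hq, h⟩
      refine ⟨g⁻¹ * q, M.mul_mem (M.inv_mem hgM) hq, ?_⟩
      calc z = g⁻¹ * (g * z * g⁻¹) * g := by group
        _ = g⁻¹ * (q * x * q⁻¹) * g := by rw [h]
        _ = g⁻¹ * q * x * (g⁻¹ * q)⁻¹ := by group
    · rintro ⟨q, hq, rfl⟩
      exact ⟨g * q, M.mul_mem hgM hq, by group⟩
  by_cases h2 : ∃ q ∈ M, z = q * x * q⁻¹
  · rw [if_pos h2, if_pos (h1.mpr h2)]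
  · rw [if_neg h2, if_neg (fun h => h2 (h1.mp h))]

theorem kl_zero_pow (hn : 0 < n) {Γ : Type} [Group Γ] {x : MonoidAlgebra F Γ}
    (h : IsNilpotent (Matrix.scalar (Fin n) x)) : IsNilpotent x := by
  obtain ⟨k, hk⟩ := h
  refine ⟨k, Psi_scalar_inj hn ?_⟩
  rw [map_pow, hk, map_zero]

omit [N.Normal] in
theorem trace_V [Fintype N] (α : G →* Matrix (Fin n) (Fin n) F) {b : G → F} {v : N → F}
    (hv : ∀ y : N, ∑ k : N, v (k⁻¹ * y * k) = b y)
    (hb1 : ev (α.comp N.subtype) (fun x : N => b x) = 1) :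
    ∑ k : N, α k * ev (α.comp N.subtype) v * α (k : G)⁻¹ = 1 := by
  have h1 : ∀ k : N, α k * ev (α.comp N.subtype) v * α (k : G)⁻¹ =
      ∑ y : N, v (k⁻¹ * y * k) • α y := by
    intro k
    rw [ev, finsum_eq_sum_of_fintype, Finset.mul_sum, Finset.sum_mul]
    symm
    apply Fintype.sum_equiv (MulAut.conj k⁻¹).toEquiv
    intro y
    show v (k⁻¹ * y * k) • α y =
      α k * (v (k⁻¹ * y * k⁻¹⁻¹) • α ((k⁻¹ * y * k⁻¹⁻¹ : N) : G)) * α (k : G)⁻¹
    rw [Matrix.mul_smul, Matrix.smul_mul, ← map_mul, ← map_mul, inv_inv]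
    congr 2
    push_cast
    group
  simp_rw [h1]
  rw [Finset.sum_comm, ← hb1, ev, finsum_eq_sum_of_fintype]
  apply Finset.sum_congr rfl
  intro y _
  rw [← Finset.sum_smul, hv]
  rfl

theorem psf_pos [Finite G] {ℓ : ℕ} (hF : CharP F ℓ) (α : G →* Matrix (Fin n) (Fin n) F)
    (hα : IsIrr (α.comp N.subtype)) {b e : G → F} (hb : PrC ℓ (fun x : N => b x))
    (hb1 : ev (α.comp N.subtype) (fun x : N => b x) = 1) (he : IsIdem e) {f : G ⧸ N → F}
    (hf : Psi N α (toMA e) = Matrix.scalar (Fin n) (toMA f)) (hfi : IsIdem f)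
    (M : Subgroup G) (hNM : N ≤ M) (hpos : Pos ℓ e M) :
    Pos ℓ f (M.map (QuotientGroup.mk' N)) := by
  intro t ht hdz
  obtain ⟨x, hxM, rfl⟩ := Subgroup.mem_map.mp ht
  have := Fintype.ofFinite N
  have := Fintype.ofFinite M
  have := Fintype.ofFinite (M.map (QuotientGroup.mk' N))
  obtain ⟨v, hv⟩ := exists_trace hF hb
  have hV := trace_V α hv hb1
  set V := ev (α.comp N.subtype) v with hVdef
  set t : G ⧸ N := QuotientGroup.mk' N x with htdef
  set c₀ := Nat.card (Subgroup.centralizer ({t} : Set (G ⧸ N)) ⊓ M.map (QuotientGroup.mk' N) :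
    Subgroup (G ⧸ N)) with hc₀
  have hc₀' : (c₀ : F) ≠ 0 := by
    rwa [Ne, CharP.cast_eq_zero_iff F ℓ]
  obtain ⟨c, hc⟩ := exists_pre α hα x ((c₀ : F)⁻¹ • V)
  set w := ∑ h : N, MonoidAlgebra.single (x * (h : G)) (c h) with hw
  let z := ∑ d : M, MonoidAlgebra.single (d : G) (1 : F) * w * MonoidAlgebra.single (d : G)⁻¹ 1
  have hz1 : Psi N α z = Matrix.scalar (Fin n) (toMA (clsum F (M.map (QuotientGroup.mk' N)) t)) := by
    show Psi N α (∑ d : M, MonoidAlgebra.single (d : G) (1 : F) * w *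
      MonoidAlgebra.single (d : G)⁻¹ 1) = _
    rw [map_sum]
    have h1 : ∀ d : M, Psi N α (MonoidAlgebra.single (d : G) (1 : F) * w *
        MonoidAlgebra.single (d : G)⁻¹ 1) =
        (c₀ : F)⁻¹ • kl (((d : G) * x * (d : G)⁻¹ : G) : G ⧸ N) (α d * V * α (d : G)⁻¹) := by
      intro d
      rw [map_mul, map_mul, hc, Psi_single, Psi_single, one_smul, one_smul, kl_mul, kl_mul,
        Matrix.mul_smul, Matrix.smul_mul, map_smul]
      rfl
    simp_rw [h1]
    obtain ⟨s, hs, hsum⟩ := sum_regroup M hNM (fun d : G =>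
      (c₀ : F)⁻¹ • kl ((d * x * d⁻¹ : G) : G ⧸ N) (α d * V * α d⁻¹))
    rw [hsum]
    have h2 : ∀ (t' : M.map (QuotientGroup.mk' N)),
        ∑ k : N, (c₀ : F)⁻¹ • kl (((s t' * k) * x * (s t' * k)⁻¹ : G) : G ⧸ N)
          (α (s t' * k) * V * α (s t' * k)⁻¹) =
        (c₀ : F)⁻¹ • Matrix.scalar (Fin n)
          (MonoidAlgebra.single ((t' : G ⧸ N) * t * (t' : G ⧸ N)⁻¹) (1 : F)) := by
      intro t'
      rw [← Finset.smul_sum]
      congr 1
      have h3 : ∀ k : N, (((s t' * k) * x * (s t' * k)⁻¹ : G) : G ⧸ N) =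
          (t' : G ⧸ N) * t * (t' : G ⧸ N)⁻¹ := by
        intro k
        have hk : ((k : G) : G ⧸ N) = 1 := (QuotientGroup.eq_one_iff _).mpr k.2
        rw [QuotientGroup.mk_mul, QuotientGroup.mk_inv, QuotientGroup.mk_mul, QuotientGroup.mk_mul,
          hk, mul_one, hs]
        rfl
      simp_rw [h3]
      rw [← map_sum]
      have h4 : ∑ k : N, α (s t' * k) * V * α (s t' * k)⁻¹ = 1 := by
        have h5 : ∀ k : N, α (s t' * k) * V * α (s t' * k)⁻¹ =
            α (s t') * (α k * V * α (k : G)⁻¹) * α (s t')⁻¹ := by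
          intro k
          rw [mul_inv_rev, map_mul, map_mul]
          simp only [mul_assoc]
        simp_rw [h5]
        rw [← Finset.sum_mul, ← Finset.mul_sum, hV, mul_one, ← map_mul, mul_inv_cancel, map_one]
      rw [h4, ← Matrix.diagonal_one, kl_scalar, Matrix.scalar_apply]
    simp_rw [h2]
    rw [← Finset.smul_sum, ← map_sum, trace_single, ← hc₀]
    have h6 : Matrix.scalar (Fin n) ((c₀ : F) •
        toMA (clsum F (M.map (QuotientGroup.mk' N)) t)) =
        (c₀ : F) • Matrix.scalar (Fin n) (toMA (clsum F (M.map (QuotientGroup.mk' N)) t)) := by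
      rw [Matrix.scalar_apply, Matrix.scalar_apply, ← Matrix.diagonal_smul]
      rfl
    rw [h6, smul_smul, inv_mul_cancel₀ hc₀', one_smul]
  have hz2 : z = ∑ h : N, (c h * (Nat.card (Subgroup.centralizer ({x * (h : G)} : Set G) ⊓ M :
      Subgroup G) : F)) • toMA (clsum F M (x * (h : G))) := by
    show ∑ d : M, MonoidAlgebra.single (d : G) (1 : F) * w *
      MonoidAlgebra.single (d : G)⁻¹ 1 = _
    simp_rw [hw, Finset.mul_sum, Finset.sum_mul]
    rw [Finset.sum_comm]
    apply Finset.sum_congr rfl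
    intro h _
    rw [mul_smul, ← trace_single M (x * (h : G)), Finset.smul_sum]
    apply Finset.sum_congr rfl
    intro d _
    rw [MonoidAlgebra.single_mul_single, MonoidAlgebra.single_mul_single,
      MonoidAlgebra.smul_single', one_mul, mul_one]
  have hnil : IsNilpotent (z * toMA e) := by
    rw [hz2, Finset.sum_mul]
    apply Commute.isNilpotent_sum
    · intro h _
      rw [smul_mul_assoc]
      have hm : x * (h : G) ∈ M := M.mul_mem hxM (hNM h.2)
      by_cases hd : ℓ ∣ Nat.card (Subgroup.centralizer ({x * (h : G)} : Set G) ⊓ M : Subgroup G)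
      · rw [(CharP.cast_eq_zero_iff F ℓ _).mpr hd, mul_zero, zero_smul]
        exact IsNilpotent.zero
      · obtain ⟨k, hk⟩ := hpos _ hm hd
        exact (nil_of_iter he hk).smul _
    · intro h h' _ _
      rw [smul_mul_assoc, smul_mul_assoc]
      apply Commute.smul_left
      apply Commute.smul_right
      have hm : x * (h' : G) ∈ M := M.mul_mem hxM (hNM h'.2)
      have h5 : Commute (toMA e) (toMA e) := Commute.refl _
      have h6 : ∀ y, Commute (toMA e) y := fun y => toMA_comm he.1 y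
      exact ((clsum_comm M hm).mul_left (h6 _)).mul_right ((h6 _).symm.mul_left h5)
  have h3 : IsNilpotent (toMA (clsum F (M.map (QuotientGroup.mk' N)) t) * toMA f) := by
    apply kl_zero_pow hα.1
    rw [map_mul, ← hz1, ← hf, ← map_mul]
    exact hnil.map (Psi N α)
  obtain ⟨k, hk⟩ := h3
  refine ⟨k + 1, toMA_injective ?_⟩
  rw [mulF_iterate]
  have hcm : Commute (toMA (clsum F (M.map (QuotientGroup.mk' N)) t)) (toMA f) :=
    (toMA_comm hfi.1 _).symm
  have hidem : IsIdempotentElem (toMA f) := by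
    show toMA f * toMA f = toMA f
    rw [← toMA_mulF, hfi.2]
  have h4 : (toMA (clsum F (M.map (QuotientGroup.mk' N)) t) * toMA f) ^ (k + 1) = 0 := by
    rw [pow_succ, hk, zero_mul]
  rw [hcm.mul_pow, hidem.pow_succ_eq] at h4
  rw [h4]
  exact (maE (F := F) (H := G ⧸ N)).map_zero.symm

end pos

theorem psf : PsfStmt := by
  intro ℓ F _ hF G _ _ N _ b e n α hb hα hb1 he _
  have := hF.char
  obtain ⟨f, hf, hfi⟩ := exists_f α hα he
  exact ⟨f, f_formula α hf, hfi, fun M _ hNM hpos =>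
    psf_pos hF.char α hα hb.2.2.2.2 hb1 he hf hfi M hNM hpos⟩

end Pool.Agent.PP.H21
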