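import Pool.Agent.Helper98_PP.StmtsR2
import Pool.Agent.Helper18_PP.Eps
import Pool.Agent.Helper75_PP.Conj
import Pool.Agent.Helper97_PP.Kri
import Pool.Agent.Helper20_PP.Nls

/-!
Squad PP (AWC), part R2, modules TSB and INX.
-/

open scoped BigOperators

noncomputable section

namespace Pool.Agent.PP.H21

open Pool.Agent.Helper51_AWC Pool.Agent.Helper79_WRA Pool.Agent.PP

section chain

variable {Y : Type} [Group Y]

theorem FixC.mul {α β : MulAut Y} {d : Finset (Subgroup Y)} (hα : FixC α d) (hβ : FixC β d) :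
    FixC (α * β) d := by
  intro D hD
  have h1 : D.map (α * β : MulAut Y).toMonoidHom = (D.map β.toMonoidHom).map α.toMonoidHom := by
    rw [Subgroup.map_map]
    rfl
  rw [h1, hβ D hD, hα D hD]

theorem FixC.inv {α : MulAut Y} {d : Finset (Subgroup Y)} (hα : FixC α d) : FixC α⁻¹ d := by
  intro D hD
  have h1 : (D.map α.toMonoidHom).map (α⁻¹ : MulAut Y).toMonoidHom = D := by
    rw [Subgroup.map_map]
    ext x
    rw [Subgroup.mem_map]
    constructor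
    · rintro ⟨y, hy, rfl⟩
      show α⁻¹ (α y) ∈ D
      rwa [MulAut.inv_apply_self]
    · intro hx
      exact ⟨x, hx, MulAut.inv_apply_self Y α x⟩
  rw [hα D hD] at h1
  exact h1

theorem FixC.kap {α β : MulAut Y} {d : Finset (Subgroup Y)} (hα : FixC α d) (hβ : FixC β d) :
    FixC (kap α β) d :=
  FixC.mul (FixC.mul (FixC.mul hα hβ) (FixC.inv hα)) (FixC.inv hβ)

theorem FixC.stab_aux {α : MulAut Y} {d : Finset (Subgroup Y)} (hα : FixC α d) {h : Y}
    (hh : h ∈ stab d) : α h ∈ stab d := by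
  rw [H97.mem_stab] at hh ⊢
  intro D hD
  have h1 := hh D hD
  rw [Subgroup.mem_normalizer_iff_map_conj_eq] at h1 ⊢
  have h2 : (D.map α.toMonoidHom).map (MulAut.conj (α h)).toMonoidHom =
      (D.map (MulAut.conj h).toMonoidHom).map α.toMonoidHom := by
    rw [Subgroup.map_map, Subgroup.map_map]
    congr 1
    ext x
    show α h * α x * (α h)⁻¹ = α (h * x * h⁻¹)
    rw [map_mul, map_mul, map_inv]
  have h3 : D.map (MulAut.conj h).toMonoidHom = D := h1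
  rw [hα D hD, h3, hα D hD] at h2
  exact h2

theorem FixC.stab_iff {α : MulAut Y} {d : Finset (Subgroup Y)} (hα : FixC α d) (h : Y) :
    α h ∈ stab d ↔ h ∈ stab d := by
  constructor
  · intro hh
    have h1 := FixC.stab_aux (FixC.inv hα) hh
    rwa [MulAut.inv_apply_self] at h1
  · exact FixC.stab_aux hα

end chain

section tsb

variable {F Y : Type} [Field F] [Group Y] [Finite Y]

theorem exists_impl_tr {ℓ : ℕ} (hF : GoodF ℓ F) {K : Subgroup Y} {n : ℕ}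
    {ρ : K →* Matrix (Fin n) (Fin n) F} (hρ : IsIrr ρ) (φ : MulAut Y)
    (hK : ∀ h, φ h ∈ K ↔ h ∈ K)
    (htr : ∀ h h' : K, (h' : Y) = φ h → tr ρ h' = tr ρ h) :
    ∃ X : (Matrix (Fin n) (Fin n) F)ˣ, Impl ρ φ X := by
  let e : K ≃ K :=
    { toFun := fun x => ⟨φ x, (hK x).2 x.2⟩
      invFun := fun x => ⟨φ⁻¹ (x : Y), (hK _).1 (by rw [MulAut.apply_inv_self]; exact x.2)⟩
      left_inv := fun x => Subtype.ext (MulAut.inv_apply_self Y φ x)
      right_inv := fun x => Subtype.ext (MulAut.apply_inv_self Y φ x) }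
  let σ : K →* Matrix (Fin n) (Fin n) F :=
    { toFun := fun x => ρ (e x)
      map_one' := by
        have : e 1 = 1 := Subtype.ext (map_one φ)
        rw [this, map_one]
      map_mul' := fun x y => by
        have : e (x * y) = e x * e y := Subtype.ext (map_mul φ _ _)
        rw [this, map_mul] }
  have hσv : ∀ x, σ x = ρ (e x) := fun _ => rfl
  have hσ : IsIrr σ := by
    refine ⟨hρ.1, ?_⟩
    have : Set.range σ = Set.range ρ := by
      ext M
      constructor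
      · rintro ⟨x, rfl⟩; exact ⟨e x, rfl⟩
      · rintro ⟨x, rfl⟩; exact ⟨e.symm x, by rw [hσv, Equiv.apply_symm_apply]⟩
    rw [this, hρ.2]
  have hts : tr ρ = tr σ := by
    funext x
    exact (htr x (e x) rfl).symm
  obtain ⟨X, Z, _, h1, h2, h3⟩ := H20.ibc ℓ F hF K n n ρ σ hρ hσ hts
  refine ⟨⟨X, Z, h1, h2⟩, fun h h' hh => ?_⟩
  have : h' = e h := Subtype.ext hh
  rw [this]
  exact h3 h

/-- the evaluation of an element of type `γ` -/
theorem ev_typ {K : Subgroup Y} {n : ℕ} (ρ : K →* Matrix (Fin n) (Fin n) F) (γ : MulAut Y)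
    {v : Y → F} (hv : ∀ n y, v (γ⁻¹ n * y * n⁻¹) = v y) (k k' : K) (hk : (k' : Y) = γ k) :
    ev ρ (fun t : K => v t) * ρ k' = ρ k * ev ρ (fun t : K => v t) := by
  have := Fintype.ofFinite K
  unfold ev
  rw [finsum_eq_sum_of_fintype, Finset.mul_sum, Finset.sum_mul]
  symm
  apply Fintype.sum_equiv ((Equiv.mulLeft k).trans (Equiv.mulRight k'⁻¹))
  intro s
  show ρ k * (v s • ρ s) = (v ((k * s * k'⁻¹ : K) : Y) • ρ (k * s * k'⁻¹)) * ρ k'
  have h1 : v ((k * s * k'⁻¹ : K) : Y) = v s := by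
    rw [← hv k' s, hk, MulAut.inv_apply_self, Subgroup.coe_mul, Subgroup.coe_mul,
      Subgroup.coe_inv, hk]
  rw [h1, Matrix.mul_smul, Matrix.smul_mul, ← map_mul, ← map_mul, inv_mul_cancel_right]

/-- evaluation and conjugation of the representation -/
theorem ev_conj_rep {K : Type} [Group K] [Finite K] {n : ℕ} {ρ σ : K →* Matrix (Fin n) (Fin n) F}
    {T : Matrix (Fin n) (Fin n) F} (hT : ∀ h, T * ρ h = σ h * T) (v : K → F) :
    T * ev ρ v = ev σ v * T := by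
  have := Fintype.ofFinite K
  unfold ev
  rw [finsum_eq_sum_of_fintype, finsum_eq_sum_of_fintype, Finset.mul_sum, Finset.sum_mul]
  apply Finset.sum_congr rfl
  intro s _
  rw [Matrix.mul_smul, Matrix.smul_mul, hT]

theorem impl_kap {K : Subgroup Y} {n : ℕ} {ρ : K →* Matrix (Fin n) (Fin n) F} {α β : MulAut Y}
    (hα : ∀ h, α h ∈ K ↔ h ∈ K) (hβ : ∀ h, β h ∈ K ↔ h ∈ K) {A B : (Matrix (Fin n) (Fin n) F)ˣ}
    (hA : Impl ρ α A) (hB : Impl ρ β B) : Impl ρ (kap α β) (A * B * A⁻¹ * B⁻¹) := by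
  have hα' : ∀ h, α⁻¹ h ∈ K ↔ h ∈ K := fun h => by
    rw [← hα, MulAut.apply_inv_self]
  have hβ' : ∀ h, β⁻¹ h ∈ K ↔ h ∈ K := fun h => by
    rw [← hβ, MulAut.apply_inv_self]
  exact H18.impl_mul hβ' (H18.impl_mul hα' (H18.impl_mul hβ hA hB) (H18.impl_inv hA))
    (H18.impl_inv hB)

theorem scal_exists {K : Subgroup Y} {n : ℕ} {ρ : K →* Matrix (Fin n) (Fin n) F} (hρ : IsIrr ρ)
    {γ : MulAut Y} (hγ : ∀ h, γ h ∈ K ↔ h ∈ K) {C : (Matrix (Fin n) (Fin n) F)ˣ}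
    (hC : Impl ρ γ C) {v : Y → F} (hv : ∀ n y, v (γ⁻¹ n * y * n⁻¹) = v y) :
    ∃ s : F, (C : Matrix (Fin n) (Fin n) F) * ev ρ (fun t : K => v t) =
      Matrix.scalar (Fin n) s := by
  apply schur hρ
  intro k'
  let k : K := ⟨γ⁻¹ k', (hγ _).1 (by rw [MulAut.apply_inv_self]; exact k'.2)⟩
  have hk : (k' : Y) = γ k := (MulAut.apply_inv_self Y γ k').symm
  rw [mul_assoc, ev_typ ρ γ hv k k' hk, ← mul_assoc, hC k k' hk, mul_assoc]

theorem isTS_exists {ℓ : ℕ} (hF : GoodF ℓ F) {d : Finset (Subgroup Y)} {f : Y → F}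
    {α β : MulAut Y} {w wi : Y → F} (hT : Torus f α β w wi) (hα : FixC α d) (hβ : FixC β d)
    {φ : stab d → F} (hφ : φ ∈ tset (stab d) f α β) : ∃ s, IsTS (stab d) φ α β w s := by
  obtain ⟨⟨n, ρ, hρ, rfl⟩, _, h1, h2⟩ := hφ
  obtain ⟨A, hA⟩ := exists_impl_tr hF hρ α (FixC.stab_iff hα) h1
  obtain ⟨B, hB⟩ := exists_impl_tr hF hρ β (FixC.stab_iff hβ) h2
  obtain ⟨s, hs⟩ := scal_exists hρ (FixC.stab_iff (FixC.kap hα hβ))
    (impl_kap (FixC.stab_iff hα) (FixC.stab_iff hβ) hA hB) hT.unt.comm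
  exact ⟨s, n, ρ, A, B, hρ, rfl, hA, hB, hs⟩

theorem comm_scal2 {U : Type} [Group U] (x x' y : U)
    (h : ∀ z : U, (x⁻¹ * x') * z = z * (x⁻¹ * x')) :
    x' * y * x'⁻¹ * y⁻¹ = x * y * x⁻¹ * y⁻¹ := by
  have e : x' = x * (x⁻¹ * x') := by group
  have h1 := h y
  generalize x⁻¹ * x' = s at e h1 h
  subst e
  rw [mul_inv_rev]
  calc x * s * y * (s⁻¹ * x⁻¹) * y⁻¹ = x * (s * y) * s⁻¹ * x⁻¹ * y⁻¹ := by group
    _ = x * y * x⁻¹ * y⁻¹ := by rw [h1]; group

theorem mon_aux {R : Type} [Monoid R] {u u' c r r' s s' : R} (h5 : u' * s = r * u')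
    (h4 : c * r = r' * c) (hU : u * r' = s' * u) : u * c * u' * s = s' * (u * c * u') := by
  calc u * c * u' * s = u * c * (u' * s) := by rw [mul_assoc]
    _ = u * (c * r) * u' := by rw [h5]; simp only [mul_assoc]
    _ = (u * r') * c * u' := by rw [h4]; simp only [mul_assoc]
    _ = s' * (u * c * u') := by rw [hU]; simp only [mul_assoc]

theorem isTS_unique {ℓ : ℕ} (hF : GoodF ℓ F) {K : Subgroup Y} {α β : MulAut Y}
    (hα : ∀ h, α h ∈ K ↔ h ∈ K) (hβ : ∀ h, β h ∈ K ↔ h ∈ K) {φ : K → F} {v : Y → F} {s s' : F}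
    (h : IsTS K φ α β v s) (h' : IsTS K φ α β v s') : s = s' := by
  obtain ⟨n, ρ, A, B, hρ, hφ, hA, hB, hs⟩ := h
  obtain ⟨n', σ, A', B', hσ, hφ', hA', hB', hs'⟩ := h'
  obtain ⟨T, Z, rfl, h1, h2, h3⟩ := H20.ibc ℓ F hF K n n' ρ σ hρ hσ (hφ.trans hφ'.symm)
  let U : (Matrix (Fin n) (Fin n) F)ˣ := ⟨T, Z, h1, h2⟩
  have hU : ∀ h, (U : Matrix (Fin n) (Fin n) F) * ρ h = σ h * U := h3
  have key : ∀ (γ : MulAut Y) (C : (Matrix (Fin n) (Fin n) F)ˣ), Impl ρ γ C →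
      Impl σ γ (U * C * U⁻¹) := by
    intro γ C hC k k' hk
    have h4 := hC k k' hk
    have h5 : ((U⁻¹ : (Matrix (Fin n) (Fin n) F)ˣ) : Matrix (Fin n) (Fin n) F) * σ k =
        ρ k * ((U⁻¹ : (Matrix (Fin n) (Fin n) F)ˣ) : Matrix (Fin n) (Fin n) F) := by
      apply H18.cancel_unit U
      rw [mul_assoc, ← hU, ← mul_assoc, Units.inv_mul, one_mul, mul_assoc, Units.inv_mul, mul_one]
    rw [Units.val_mul, Units.val_mul]
    exact mon_aux h5 h4 (hU k')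
  have hA2 := H18.impl_central hσ hα (key α A hA) hA'
  have hB2 := H18.impl_central hσ hβ (key β B hB) hB'
  have h6 : A' * B' * A'⁻¹ * B'⁻¹ = U * (A * B * A⁻¹ * B⁻¹) * U⁻¹ := by
    rw [comm_scal2 _ _ B' hA2, H18.comm_scal _ _ _ hB2]
    group
  have h7 := ev_conj_rep hU (fun t : K => v t)
  rw [h6] at hs'
  have h8 : ((U * (A * B * A⁻¹ * B⁻¹) * U⁻¹ : (Matrix (Fin n) (Fin n) F)ˣ) :
      Matrix (Fin n) (Fin n) F) * ev σ (fun t : K => v t) * U =
      U * (((A * B * A⁻¹ * B⁻¹ : (Matrix (Fin n) (Fin n) F)ˣ) : Matrix (Fin n) (Fin n) F) *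
        ev ρ (fun t : K => v t)) := by
    rw [mul_assoc, ← h7, Units.val_mul, Units.val_mul U, mul_assoc, mul_assoc,
      ← mul_assoc ((U⁻¹ : (Matrix (Fin n) (Fin n) F)ˣ) : Matrix (Fin n) (Fin n) F),
      Units.inv_mul, one_mul]
  rw [hs', hs] at h8
  have h9 := congrArg (fun M => M * ((U⁻¹ : (Matrix (Fin n) (Fin n) F)ˣ) :
    Matrix (Fin n) (Fin n) F)) h8
  simp only [mul_assoc, Units.mul_inv, mul_one] at h9
  rw [Matrix.scalar_apply, ← Matrix.smul_one_eq_diagonal, Matrix.scalar_apply,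
    ← Matrix.smul_one_eq_diagonal, smul_mul_assoc, one_mul, mul_smul_comm, Units.mul_inv] at h9
  have h10 := congrFun (congrFun h9 ⟨0, hρ.1⟩) ⟨0, hρ.1⟩
  rw [Matrix.smul_apply, Matrix.smul_apply, Matrix.one_apply_eq, smul_eq_mul, mul_one,
    smul_eq_mul, mul_one] at h10
  exact h10.symm

theorem unt_wi {f : Y → F} {γ : MulAut Y} {w wi : Y → F} (hf : IsCl f) (h : Unt f γ w wi) :
    ∀ n y, wi (n * y * (γ⁻¹ n)⁻¹) = wi y := by
  have h1 : ∀ n, mulF w (dl F n) = mulF (dl F (γ⁻¹ n)) w := by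
    intro n
    funext y
    rw [H75.mulF_dl_left, H75.mulF_dl_right, ← h.comm n ((γ⁻¹ n)⁻¹ * y)]
    congr 1
    group
  have hfc : ∀ a, mulF f a = mulF a f := fun a => H75.mulF_comm_cl hf a
  have h2 : ∀ n, mulF (dl F n) wi = mulF wi (dl F (γ⁻¹ n)) := by
    intro n
    calc mulF (dl F n) wi = mulF (mulF f (dl F n)) wi := by
          rw [hfc, mulF_assoc, h.fwi]
      _ = mulF (mulF wi (mulF w (dl F n))) wi := by rw [← h.unit', mulF_assoc wi w]
      _ = mulF wi (mulF (dl F (γ⁻¹ n)) (mulF w wi)) := by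
          rw [h1, mulF_assoc, mulF_assoc]
      _ = mulF (mulF wi f) (dl F (γ⁻¹ n)) := by rw [h.unit, ← hfc, mulF_assoc]
      _ = mulF wi (dl F (γ⁻¹ n)) := by rw [← hfc, h.fwi]
  intro n y
  have h3 := congrFun (h2 n) (n * y)
  rw [H75.mulF_dl_left, H75.mulF_dl_right, inv_mul_cancel_left] at h3
  exact h3.symm

theorem ev_f_one {ℓ : ℕ} (_hF : GoodF ℓ F) {K : Subgroup Y} {n : ℕ}
    {ρ : K →* Matrix (Fin n) (Fin n) F} (hρ : IsIrr ρ) {f : Y → F} (hf : IsCl f)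
    (h : actF (fun t : K => f t) (tr ρ) = tr ρ) : ev ρ (fun t : K => f t) = 1 := by
  have hcl : IsCl (fun t : K => f t) := fun x y => hf x y
  obtain ⟨c, hc, hc2, _⟩ := H20.eig F K n ρ hρ _ hcl
  rw [hc2] at h
  have hc1 : c = 1 := by
    by_contra hne
    apply H75.tr_ne_zero hρ
    have h1 : (c - 1) • tr ρ = 0 := by rw [sub_smul, h, one_smul, sub_self]
    rcases smul_eq_zero.mp h1 with h2 | h2
    · exact absurd (sub_eq_zero.mp h2) hne
    · exact h2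
  rw [hc, hc1, map_one]

theorem tsb (hthe : TheStmt) : TsbStmt := by
  intro ℓ F _ hF Y _ _ f α β w wi hT d hd hα hβ φ hφ
  have hex := isTS_exists hF hT hα hβ hφ
  have hts : IsTS (stab d) φ α β w (ts (stab d) φ α β w) := by
    rw [ts, dif_pos hex]
    exact hex.choose_spec
  refine ⟨hts, fun s hs => isTS_unique hF (FixC.stab_iff hα) (FixC.stab_iff hβ) hs hts, ?_⟩
  intro hnd h0
  obtain ⟨n, ρ, A, B, hρ, hφρ, hA, hB, hs⟩ := hts
  rw [h0, map_zero] at hs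
  have hkap := FixC.kap hα hβ
  have hC := impl_kap (FixC.stab_iff hα) (FixC.stab_iff hβ) hA hB
  have hwi := unt_wi hT.blk.1.1 hT.unt
  have h1 := hthe ℓ F hF Y d hd hnd n ρ hρ (kap α β)⁻¹ (kap α β) (FixC.inv hkap) hkap
    (fun y => wi ((kap α β)⁻¹ y)) w (by
      intro m y
      show wi ((kap α β)⁻¹ ((kap α β)⁻¹⁻¹ m * y * m⁻¹)) = wi ((kap α β)⁻¹ y)
      rw [map_mul, map_mul, inv_inv, MulAut.inv_apply_self, map_inv]
      exact hwi m _) hT.unt.comm _ hC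
  rw [mul_assoc, hs, mul_zero] at h1
  have h2 : (fun t : stab d => mulF (fun y => (fun y => wi ((kap α β)⁻¹ y)) (kap α β y)) w t) =
      fun t : stab d => f t := by
    have h3 : (fun y => (fun y => wi ((kap α β)⁻¹ y)) (kap α β y)) = wi := by
      funext y
      show wi ((kap α β)⁻¹ (kap α β y)) = wi y
      rw [MulAut.inv_apply_self]
    rw [h3, hT.unt.unit']
  rw [h2, ev_f_one hF hρ hT.blk.1.1 (by rw [hφρ]; exact hφ.2.1), mul_one] at h1
  have h3 := Units.mul_inv (A * B * A⁻¹ * B⁻¹)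
  rw [← h1, zero_mul] at h3
  have : Nonempty (Fin n) := ⟨⟨0, hρ.1⟩⟩
  exact zero_ne_one h3

end tsb

end Pool.Agent.PP.H21
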